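import Pool.Agent.Helper3.WT.Defs
import Pool.Agent.Helper48.ET.IntsCore
import Pool.Agent.Helper48.ET.Code

/-! Project WT, pieces A4, A5, A6: encodings of words and representation counts. -/

set_option autoImplicit false

namespace Pool.Agent.Helper12.WT

open Finset
open Pool.Agent.Helper48.ET
open Pool.Agent.Helper3.WT

/-- the pairs with sum `n` form a finite set -/
theorem rp_set_finite (X Y : Set ℕ) (n : ℕ) :
    {q : ℕ × ℕ | q.1 ∈ X ∧ q.2 ∈ Y ∧ q.1 + q.2 = n}.Finite := by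
  refine (Set.finite_Icc ((0, 0) : ℕ × ℕ) (n, n)).subset ?_
  rintro ⟨a, b⟩ ⟨_, _, h⟩
  simp only at h
  rw [Set.mem_Icc]
  exact ⟨⟨Nat.zero_le _, Nat.zero_le _⟩, ⟨by show a ≤ n; omega, by show b ≤ n; omega⟩⟩

theorem rp_comm (X Y : Set ℕ) (n : ℕ) : rp X Y n = rp Y X n := by
  unfold rp
  have h : {q : ℕ × ℕ | q.1 ∈ Y ∧ q.2 ∈ X ∧ q.1 + q.2 = n} =
      Prod.swap '' {q : ℕ × ℕ | q.1 ∈ X ∧ q.2 ∈ Y ∧ q.1 + q.2 = n} := by
    ext ⟨a, b⟩
    constructor
    · rintro ⟨h1, h2, h3⟩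
      refine ⟨(b, a), ⟨h2, h1, ?_⟩, rfl⟩
      show b + a = n
      rw [← h3]
      exact add_comm _ _
    · rintro ⟨⟨c, d⟩, ⟨h1, h2, h3⟩, h4⟩
      have h5 : d = a := congrArg Prod.fst h4
      have h6 : c = b := congrArg Prod.snd h4
      subst h5 h6
      exact ⟨h2, h1, by rw [← h3]; exact add_comm _ _⟩
  rw [h, Set.ncard_image_of_injective _ Prod.swap_injective]

theorem rp_mono {X X' Y Y' : Set ℕ} (hX : X ⊆ X') (hY : Y ⊆ Y') (n : ℕ) :
    rp X Y n ≤ rp X' Y' n := by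
  unfold rp
  exact Set.ncard_le_ncard (fun q hq => ⟨hX hq.1, hY hq.2.1, hq.2.2⟩) (rp_set_finite X' Y' n)

section codes

variable {p : ℕ} [Fact p.Prime]

theorem enc_succ' (N : ℕ) (x z : ℕ → ZMod p) :
    enc (N + 1) x z = enc N x z + ((x N).val + 2 * p * (z N).val) * (2 * p) ^ (2 * N) := by
  unfold enc
  rw [sum_range_succ]

theorem two_enc_lt (N : ℕ) (x z : ℕ → ZMod p) : 2 * enc N x z < (2 * p) ^ (2 * N) := by
  induction N with
  | zero => simp [enc]
  | succ N ih =>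
    rw [enc_succ']
    have hx : (x N).val < p := ZMod.val_lt _
    have hz : (z N).val < p := ZMod.val_lt _
    have h1 : 2 * ((x N).val + 2 * p * (z N).val) + 1 ≤ (2 * p) ^ 2 := by
      have h2 : 2 * p * ((z N).val + 1) ≤ 2 * p * p := Nat.mul_le_mul_left _ hz
      nlinarith
    have h3 : (2 * p) ^ (2 * (N + 1)) = (2 * p) ^ 2 * (2 * p) ^ (2 * N) := by
      rw [← pow_add]
      congr 1
      ring
    calc 2 * (enc N x z + ((x N).val + 2 * p * (z N).val) * (2 * p) ^ (2 * N))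
        = 2 * enc N x z + (2 * ((x N).val + 2 * p * (z N).val)) * (2 * p) ^ (2 * N) := by ring
      _ < (2 * p) ^ (2 * N) + (2 * ((x N).val + 2 * p * (z N).val)) * (2 * p) ^ (2 * N) :=
          Nat.add_lt_add_right ih _
      _ = (2 * ((x N).val + 2 * p * (z N).val) + 1) * (2 * p) ^ (2 * N) := by ring
      _ ≤ (2 * p) ^ 2 * (2 * p) ^ (2 * N) := Nat.mul_le_mul_right _ h1
      _ = (2 * p) ^ (2 * (N + 1)) := h3.symm

theorem le_enc {N : ℕ} (hN : 1 ≤ N) (x z : ℕ → ZMod p) (hx : x (N - 1) = 1) :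
    (2 * p) ^ (2 * (N - 1)) ≤ enc N x z := by
  have hp1 : 1 < p := (Fact.out : p.Prime).one_lt
  have : Fact (1 < p) := ⟨hp1⟩
  obtain ⟨K, rfl⟩ : ∃ K, N = K + 1 := ⟨N - 1, by omega⟩
  rw [Nat.add_sub_cancel] at hx ⊢
  rw [enc_succ', hx, ZMod.val_one]
  calc (2 * p) ^ (2 * K) = 1 * (2 * p) ^ (2 * K) := (one_mul _).symm
    _ ≤ (1 + 2 * p * (z K).val) * (2 * p) ^ (2 * K) :=
        Nat.mul_le_mul_right _ (Nat.le_add_right _ _)
    _ ≤ _ := Nat.le_add_left _ _

theorem enc_mod {N : ℕ} (hN : 1 ≤ N) (x z : ℕ → ZMod p) :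
    enc N x z % (2 * p) = (x 0).val := by
  obtain ⟨K, rfl⟩ : ∃ K, N = K + 1 := ⟨N - 1, by omega⟩
  unfold enc
  rw [sum_range_succ']
  have hdvd : 2 * p ∣ ∑ u ∈ range K, ((x (u + 1)).val + 2 * p * (z (u + 1)).val) *
      (2 * p) ^ (2 * (u + 1)) := by
    refine dvd_sum fun u _ => ?_
    exact Dvd.dvd.mul_left (dvd_pow_self _ (by omega)) _
  obtain ⟨c, hc⟩ := hdvd
  rw [hc]
  have hx : (x 0).val < p := ZMod.val_lt _
  have e : 2 * p * c + ((x 0).val + 2 * p * (z 0).val) * (2 * p) ^ (2 * 0) =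
      (x 0).val + 2 * p * (c + (z 0).val) := by
    rw [mul_zero, pow_zero]
    ring
  rw [e, Nat.add_mul_mod_self_left, Nat.mod_eq_of_lt (by omega)]

open Classical in
theorem rp_word_le {C N' N ℓ' ℓ B : ℕ} (hC : 2 ≤ C) {θ' θ : Par p} (hNN : N' ≤ N)
    (h : ∀ t w : ℕ → ZMod p, (Sol C 0 N' θ' 0 N θ t w).ncard ≤ B) (n : ℕ) :
    rp (wordSet C N' θ' ℓ') (wordSet C N θ ℓ) n ≤ B := by
  unfold rp
  set P1 : Set (ℕ × ℕ) := {q | q.1 ∈ wordSet C N' θ' ℓ' ∧ q.2 ∈ wordSet C N θ ℓ ∧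
    q.1 + q.2 = n} with hP1
  rcases P1.eq_empty_or_nonempty with he | ⟨q0, ⟨x0', z0', h1, _, e1⟩, ⟨x0, z0, h2, _, e2⟩, e3⟩
  · rw [he]
    simp
  · let zof : (ℕ → ZMod p) → (ℕ → ZMod p) := fun x' =>
      if h : ∃ z, IsCode C 0 N' θ' x' z then Classical.choose h else 0
    let g : (ℕ → ZMod p) → ℕ × ℕ := fun x' => (enc N' x' (zof x'), n - enc N' x' (zof x'))
    have hg : ∀ (x' z' : ℕ → ZMod p) (q : ℕ × ℕ), IsCode C 0 N' θ' x' z' →
        q.1 = enc N' x' z' → q.1 + q.2 = n → g x' = q := by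
      intro x' z' q hc hq1 hq2
      have hex : ∃ z, IsCode C 0 N' θ' x' z := ⟨z', hc⟩
      have hzof : zof x' = z' := by
        simp only [zof, dif_pos hex]
        exact code_unique hC (by rw [pow_zero]; exact one_dvd _) θ'
          (Classical.choose_spec hex) hc
      simp only [g, hzof]
      rw [← hq1]
      ext
      · rfl
      · show n - q.1 = q.2
        omega
    have hsub : P1 ⊆ g '' (Sol C 0 N' θ' 0 N θ (x0' + x0) (z0' + z0)) := by
      rintro q ⟨⟨y', v', h3, _, f1⟩, ⟨y, v, h4, _, f2⟩, f3⟩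
      have hadd := enc_add h1.xs h1.zs h2.xs h2.zs h3.xs h3.zs h4.xs h4.zs
        (by rw [← e1, ← e2, ← f1, ← f2, e3, f3])
      have hx : ∀ u, x0' u + x0 u = y' u + y u := by
        intro u
        have := congrArg (Nat.cast : ℕ → ZMod p) (hadd u).1
        simpa using this
      have hz : ∀ u, z0' u + z0 u = v' u + v u := by
        intro u
        have := congrArg (Nat.cast : ℕ → ZMod p) (hadd u).2
        simpa using this
      refine ⟨y', ⟨v', h3, ?_⟩, hg y' v' q h3 f1 f3⟩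
      have ey : x0' + x0 - y' = y := by
        funext u
        simp only [Pi.add_apply, Pi.sub_apply]
        rw [hx u]; ring
      have ev : z0' + z0 - v' = v := by
        funext u
        simp only [Pi.add_apply, Pi.sub_apply]
        rw [hz u]; ring
      rw [ey, ev]
      exact h4
    have hfin : (Sol C 0 N' θ' 0 N θ (x0' + x0) (z0' + z0)).Finite := sol_finite'
    exact (Set.ncard_le_ncard hsub (hfin.image g)).trans ((Set.ncard_image_le hfin).trans (h _ _))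

end codes

end Pool.Agent.Helper12.WT
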